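import Pool.Agent.Lib.MP_bc213e_ag.WCI.Main

/-! Effective nonvanishing for weighted complete intersections of any codimension, with any
singularities. -/

namespace Pool.Agent.Results.MP_bc213e_ag.EffectiveWCI

open Pool.Agent.Lib.MP_bc213e_ag.WCI

theorem result {n c : ℕ} (a : Fin (n + 1) → ℕ) (d : Fin c → ℕ) (ha : ∀ i, 0 < a i)
    (hd : ∀ j, 0 < d j) (hc : c ≤ n) (f : Fin c → MvPolynomial (Fin (n + 1)) ℂ)
    (hf : ∀ j, (f j).IsWeightedHomogeneous a (d j)) (hp : (Ideal.span (Set.range f)).IsPrime)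
    (k : ℕ) (hk : Cartier a f k) (hδ : ∑ j, d j ≤ k + ∑ i, a i)
    (h0 : c = n → ∑ j, d j < k + ∑ i, a i) :
    ∃ g : MvPolynomial (Fin (n + 1)) ℂ,
      g.IsWeightedHomogeneous a k ∧ g ∉ Ideal.span (Set.range f) :=
  main ha hd (Nat.lt_succ_of_le hc) hf hp hk hδ fun e => h0 (Nat.succ_injective e)

end Pool.Agent.Results.MP_bc213e_ag.EffectiveWCI
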