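import Pool.Agent.Lib.MP_bc213e_ag.OW.F.Euler

/-!
Let `X ⊆ ℙ ^ N` be a normal projective variety of dimension `n ≥ 2` and `Δ ≥ 0` a rational divisor
such that `L = m (K + Δ)` is Cartier and has nonnegative degree on every curve. If `χ (t L)` grows at
least like `t ^ (n - 2)`, then a positive multiple of `L` is linearly equivalent to an effective
divisor, and the sections of `t L` grow at least like `t ^ (n - 2)`.
-/

namespace Pool.Agent.Results.MP_bc213e_ag.EulerNonvanishing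

open Pool.Agent.Lib.MP_bc213e_ag.Hyp Pool.Agent.Lib.MP_bc213e_ag.OW Filter

theorem result {K : Type} [Field K] [Algebra ℂ K] {N n m : ℕ} (hn : 2 ≤ n) (hm : 0 < m)
    (x : Fin (N + 1) → Kˣ)
    (normal : ∀ i, IsFractionRing (chart x i) K ∧ IsIntegrallyClosed (chart x i))
    (τ : Fin n → K) (hτ : IsTranscendenceBasis ℂ τ) (D : Fin n → Derivation ℂ K K)
    (hD : ∀ a b, D a (τ b) = if a = b then 1 else 0)
    (KX : Prm x →₀ ℤ) (canonical : IsCanonical D KX) (Δ : Prm x →₀ ℚ) (effective : 0 ≤ Δ)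
    (L : Prm x →₀ ℤ) (hL : ∀ w, (L w : ℚ) = m * (KX w + Δ w))
    (cartier : IsCartier L) (nef : IsNef L) (c : ℚ) (hc : 0 < c)
    (euler : ∃ᶠ t : ℕ in atTop, c * (t : ℚ) ^ (n - 2) ≤ chi (Sect (t • L))) :
    (∃ t : ℕ, 0 < t ∧ ∃ f : Kˣ, ∀ w : Prm x, 0 ≤ ord w.1 (f : K) + t * L w) ∧
      ∃ δ : ℚ, 0 < δ ∧ ∃ᶠ t : ℕ in atTop,
        δ * (t : ℚ) ^ (n - 2) ≤ Module.finrank ℂ (Sect (t • L) ∅) := by
  have h := euler_growth hn hm x normal τ hτ D hD KX canonical Δ effective L hL cartier nef c hc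
    euler
  exact ⟨concl_of_growth h, h⟩

end Pool.Agent.Results.MP_bc213e_ag.EulerNonvanishing
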