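import Pool.Agent.Lib.MP_bc213e_ag.SB.E.FinalT

/-!
Let `X ⊆ ℙ ^ N` be a normal projective variety and `Δ ≥ 0` a rational divisor such that
`L = m (K + Δ)` is Cartier and has nonnegative degree on every curve. Let `0 < ν` and `ν + j ≤ 2`.
Let `E` be the reflexive hull of `S ^ (d 1) Ω ⊗ ⋯ ⊗ S ^ (d k) Ω`, of total degree `p`. Let `(X, Δ)`
be klt at all points of dimension more than `ν`, and let `X` be smooth at all points of dimension
more than `ν + j` unless `p = 0`, that is, unless `E = O`. Let `H` be the hyperplane section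
`x 0 = 0` and let `P (t, a) = χ (E (t L + a H))` have degree at most `ν` in `t`, with a coefficient
of `t ^ ν` that is not divisible by `a ^ (j + 1)`. Let `H ^ 1 (Y, O) = 0` for all normal projective
models `Y` of the function field. Then a positive multiple of `L` is linearly equivalent to an
effective divisor.
-/

namespace Pool.Agent.Results.MP_bc213e_ag.NuOne

open Pool.Agent.Lib.MP_bc213e_ag.Hyp Pool.Agent.Lib.MP_bc213e_ag.OW

theorem result {K K' : Type} [Field K] [Algebra ℂ K] [Field K'] [Algebra ℂ K'] [Algebra K K']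
    [IsScalarTower ℂ K K'] {N n m ν j k p : ℕ} (hm : 0 < m) (hν : 0 < ν) (hj : ν + j ≤ 2)
    (x : Fin (N + 1) → Kˣ)
    (normal : ∀ i, IsFractionRing (chart x i) K ∧ IsIntegrallyClosed (chart x i))
    (τ : Fin n → K) (hτ : IsTranscendenceBasis ℂ τ) (D : Fin n → Derivation ℂ K K)
    (hD : ∀ a b, D a (τ b) = if a = b then 1 else 0)
    (KX : Prm x →₀ ℤ) (canonical : IsCanonical D KX) (Δ : Prm x →₀ ℚ) (effective : 0 ≤ Δ)
    (L : Prm x →₀ ℤ) (hL : ∀ w, (L w : ℚ) = m * (KX w + Δ w))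
    (cartier : IsCartier L) (nef : IsNef L)
    (klt : ∀ (O : Subalgebra ℂ K) (F : Type) [Field F] [Algebra ℂ F] (ρ : O →ₐ[ℂ] F),
      IsPoint x O → Function.Surjective ρ →
        ((ν : Cardinal) < Algebra.trdeg ℂ F → KltAt D m L O) ∧
          (0 < p → ((ν + j : ℕ) : Cardinal) < Algebra.trdeg ℂ F → SmoothAt n O))
    (H : Prm x →₀ ℤ)
    (hyperplane : ∀ i (w : Prm x), PrimeDiv (chart x i) w.1 → H w = ord w.1 ((x 0 : K) / x i))
    (ξ : Fin k × Fin n → K') (hξ : AlgebraicIndependent K ξ) (type : Fin p → Fin k)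
    (P : Polynomial (Polynomial ℚ))
    (euler : ∀ t a : ℕ, (chi (SectT D ξ type (t • L + a • H)) : ℚ) =
      (P.eval (Polynomial.C (t : ℚ))).eval (a : ℚ))
    (deg : P.natDegree ≤ ν) (order : ¬ Polynomial.X ^ (j + 1) ∣ P.coeff ν)
    (regular : ∀ (N' : ℕ) (y : Fin (N' + 1) → Kˣ),
      (∀ i, IsFractionRing (chart y i) K ∧ IsIntegrallyClosed (chart y i)) →
        hC (Sect (0 : Prm y →₀ ℤ)) 1 = 0) :
    ∃ t : ℕ, 0 < t ∧ ∃ f : Kˣ, ∀ w : Prm x, 0 ≤ ord w.1 (f : K) + t * L w :=
  nu_tens hm hν hj x normal τ hτ D hD KX canonical Δ effective L hL cartier nef klt H hyperplane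
    ξ hξ type P euler deg order regular

end Pool.Agent.Results.MP_bc213e_ag.NuOne
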