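import Pool.Agent.Lib.MP_bc213e_ag.TE.Fin

/-!
Let `X ⊆ ℙ ^ N` be a normal projective variety of dimension `n` and `Δ ≥ 0` a rational divisor such
that `L = m (K + Δ)` is Cartier and has nonnegative degree on every curve. Let `H` be the hyperplane
section `x 0 = 0` and let `L ^ i · H ^ (n - i) = 0` for `i > ν`, so the numerical dimension of `L`
is at most `ν`. Let `E` be the reflexive hull of `S ^ (d 1) Ω ⊗ ⋯ ⊗ S ^ (d k) Ω`, of total degree
`p`. Let `(X, Δ)` be klt at all points of dimension more than `ν`, and let `X` be smooth there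
unless `p = 0`, that is, unless `E = O`. If `|χ (E (t L))|` grows like `t ^ ν`, then a positive
multiple of `L` is linearly equivalent to an effective divisor, and the sections of `t L` grow
like `t ^ ν`.
-/

namespace Pool.Agent.Results.MP_bc213e_ag.TensorKlt

open Pool.Agent.Lib.MP_bc213e_ag.Hyp Pool.Agent.Lib.MP_bc213e_ag.OW Filter

theorem result {K K' : Type} [Field K] [Algebra ℂ K] [Field K'] [Algebra ℂ K'] [Algebra K K']
    [IsScalarTower ℂ K K'] {N n m ν k p : ℕ} (hm : 0 < m) (x : Fin (N + 1) → Kˣ)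
    (normal : ∀ i, IsFractionRing (chart x i) K ∧ IsIntegrallyClosed (chart x i))
    (τ : Fin n → K) (hτ : IsTranscendenceBasis ℂ τ) (D : Fin n → Derivation ℂ K K)
    (hD : ∀ a b, D a (τ b) = if a = b then 1 else 0)
    (KX : Prm x →₀ ℤ) (canonical : IsCanonical D KX) (Δ : Prm x →₀ ℚ) (effective : 0 ≤ Δ)
    (L : Prm x →₀ ℤ) (hL : ∀ w, (L w : ℚ) = m * (KX w + Δ w))
    (cartier : IsCartier L) (nef : IsNef L)
    (klt : ∀ (O : Subalgebra ℂ K) (F : Type) [Field F] [Algebra ℂ F] (ρ : O →ₐ[ℂ] F),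
      IsPoint x O → Function.Surjective ρ → (ν : Cardinal) < Algebra.trdeg ℂ F →
        KltAt D m L O ∧ (p = 0 ∨ SmoothAt n O))
    (H : Prm x →₀ ℤ)
    (hyperplane : ∀ i (w : Prm x), PrimeDiv (chart x i) w.1 → H w = ord w.1 ((x 0 : K) / x i))
    (numdim : ∀ i j, ν < i → i + j = n → inter L H i j = 0)
    (ξ : Fin k × Fin n → K') (hξ : AlgebraicIndependent K ξ) (type : Fin p → Fin k)
    (c : ℚ) (hc : 0 < c)
    (euler : ∃ᶠ t : ℕ in atTop, c * (t : ℚ) ^ ν ≤ |(chi (SectT D ξ type (t • L)) : ℚ)|) :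
    (∃ t : ℕ, 0 < t ∧ ∃ f : Kˣ, ∀ w : Prm x, 0 ≤ ord w.1 (f : K) + t * L w) ∧
      ∃ δ : ℚ, 0 < δ ∧ ∃ᶠ t : ℕ in atTop,
        δ * (t : ℚ) ^ ν ≤ Module.finrank ℂ (Sect (t • L) ∅) := by
  have h := tens_klt hm x normal τ hτ D hD KX canonical Δ effective L hL cartier nef klt
    H hyperplane numdim ξ hξ type c hc euler
  exact ⟨concl_of_growth h, h⟩

end Pool.Agent.Results.MP_bc213e_ag.TensorKlt
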